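import Pool.Agent.H226R4.Defs

set_option autoImplicit false

namespace Pool.Agent.H226R4

open MeasureTheory Finset

/-- the finite sum behind `t` -/
def S (w : Fin 4 → Fin 3 → ℕ) : ℕ :=
  ∑ y : Fin 7 → Fin 3, ∏ v : Fin 14, ∑ x : Fin 4, ∏ q : Fin 7,
    if (v, q) ∈ fano2 then w x (y q) else 1

theorem sum_eq (w : Fin 4 → Fin 3 → ℕ) (W : Fin 4 × Fin 3 → ℝ)
    (hW : ∀ z, W z = (w z.1 z.2 : ℝ)) :
    ∑ z : (Fin 14 → Fin 4) × (Fin 7 → Fin 3), ∏ p ∈ fano2, W (z.1 p.1, z.2 p.2) = (S w : ℝ) := by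
  rw [Fintype.sum_prod_type_right]
  unfold S
  push_cast
  refine Finset.sum_congr rfl fun y _ => ?_
  have h2 : ∀ x : Fin 14 → Fin 4, ∏ p ∈ fano2, W (x p.1, y p.2)
      = ∏ v : Fin 14, ∏ q : Fin 7, if (v, q) ∈ fano2 then (w (x v) (y q) : ℝ) else 1 := by
    intro x
    have h4 : ∏ p ∈ fano2, W (x p.1, y p.2)
        = ∏ p : Fin 14 × Fin 7, if p ∈ fano2 then (w (x p.1) (y p.2) : ℝ) else 1 := by
      rw [Finset.prod_ite_mem, Finset.univ_inter]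
      exact Finset.prod_congr rfl fun p _ => hW _
    rw [h4, Fintype.prod_prod_type]
  have h3 := (Finset.prod_univ_sum (κ := fun _ : Fin 14 => Fin 4) (t := fun _ => Finset.univ)
    (f := fun (v : Fin 14) (c : Fin 4) =>
      ∏ q : Fin 7, if (v, q) ∈ fano2 then (w c (y q) : ℝ) else 1)).symm
  rw [Fintype.piFinset_univ] at h3
  rw [← h3]
  exact Finset.sum_congr rfl fun x _ => h2 x

theorem t_eq (μ : Measure (Fin 4)) (ν : Measure (Fin 3)) [IsProbabilityMeasure μ]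
    [IsProbabilityMeasure ν] (a b : ℝ) (ha : ∀ x, μ.real {x} = a) (hb : ∀ y, ν.real {y} = b)
    (w : Fin 4 → Fin 3 → ℕ) (W : Fin 4 × Fin 3 → ℝ) (hW : ∀ z, W z = (w z.1 z.2 : ℝ)) :
    t fano2 μ ν W = a ^ 14 * b ^ 7 * (S w : ℝ) := by
  unfold t
  rw [integral_fintype Integrable.of_finite]
  have h1 : ∀ z : (Fin 14 → Fin 4) × (Fin 7 → Fin 3),
      ((Measure.pi fun _ : Fin 14 => μ).prod (Measure.pi fun _ : Fin 7 => ν)).real {z}
        = a ^ 14 * b ^ 7 := by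
    intro z
    have e : ({z} : Set ((Fin 14 → Fin 4) × (Fin 7 → Fin 3))) = {z.1} ×ˢ {z.2} := by
      rw [Set.singleton_prod_singleton]
    rw [e, measureReal_prod_prod]
    have e1 : (Measure.pi fun _ : Fin 14 => μ).real {z.1} = a ^ 14 := by
      rw [measureReal_def, Measure.pi_singleton, ENNReal.toReal_prod]
      have : ∀ i : Fin 14, (μ {z.1 i}).toReal = a := fun i => ha _
      simp [this]
    have e2 : (Measure.pi fun _ : Fin 7 => ν).real {z.2} = b ^ 7 := by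
      rw [measureReal_def, Measure.pi_singleton, ENNReal.toReal_prod]
      have : ∀ i : Fin 7, (ν {z.2 i}).toReal = b := fun i => hb _
      simp [this]
    rw [e1, e2]
  simp only [h1, smul_eq_mul]
  rw [← Finset.mul_sum, sum_eq w W hW]

/-! ### fast evaluation -/

theorem sum_cons {n : ℕ} {β : Type} [Fintype β] (f : (Fin (n + 1) → β) → ℕ) :
    ∑ y, f y = ∑ a : β, ∑ y : Fin n → β, f (Fin.cons a y) := by
  rw [← Fintype.sum_prod_type' (f := fun a (y : Fin n → β) => f (Fin.cons a y))]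
  exact ((Fin.consEquiv (fun _ : Fin (n + 1) => β)).sum_comp f).symm

/-- the local sum at a line -/
def T (w : Fin 4 → Fin 3 → ℕ) (a b c : Fin 3) : ℕ := ∑ x : Fin 4, w x a * w x b * w x c

theorem sum7 (F : (Fin 7 → Fin 3) → ℕ) : ∑ y, F y = ∑ a : Fin 3, ∑ b : Fin 3, ∑ c : Fin 3,
    ∑ d : Fin 3, ∑ e : Fin 3, ∑ f : Fin 3, ∑ g : Fin 3, F ![a, b, c, d, e, f, g] := by
  rw [sum_cons]
  refine Finset.sum_congr rfl fun a _ => ?_
  rw [sum_cons]
  refine Finset.sum_congr rfl fun b _ => ?_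
  rw [sum_cons]
  refine Finset.sum_congr rfl fun c _ => ?_
  rw [sum_cons]
  refine Finset.sum_congr rfl fun d _ => ?_
  rw [sum_cons]
  refine Finset.sum_congr rfl fun e _ => ?_
  rw [sum_cons]
  refine Finset.sum_congr rfl fun f _ => ?_
  rw [sum_cons]
  refine Finset.sum_congr rfl fun g _ => ?_
  rw [Fintype.sum_unique]
  congr 1

def P0 : Fin 14 → Fin 7 := ![0, 1, 2, 3, 4, 5, 6, 0, 1, 2, 3, 4, 5, 6]
def P1 : Fin 14 → Fin 7 := ![1, 2, 3, 4, 5, 6, 0, 1, 2, 3, 4, 5, 6, 0]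
def P2 : Fin 14 → Fin 7 := ![3, 4, 5, 6, 0, 1, 2, 3, 4, 5, 6, 0, 1, 2]

theorem P_filter : ∀ v : Fin 14, (Finset.univ.filter fun q : Fin 7 => (v, q) ∈ fano2)
    = {P0 v, P1 v, P2 v} := by decide +kernel

theorem P_ne : ∀ v : Fin 14, P0 v ≠ P1 v ∧ P0 v ≠ P2 v ∧ P1 v ≠ P2 v := by decide +kernel

theorem loc (w : Fin 4 → Fin 3 → ℕ) (y : Fin 7 → Fin 3) (v : Fin 14) :
    (∑ x : Fin 4, ∏ q : Fin 7, if (v, q) ∈ fano2 then w x (y q) else 1)
      = T w (y (P0 v)) (y (P1 v)) (y (P2 v)) := by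
  unfold T
  refine Finset.sum_congr rfl fun x _ => ?_
  rw [Finset.prod_ite, Finset.prod_const_one, mul_one]
  obtain ⟨n1, n2, n3⟩ := P_ne v
  have m1 : P0 v ∉ ({P1 v, P2 v} : Finset (Fin 7)) := by
    rw [Finset.mem_insert, Finset.mem_singleton]
    rintro (h | h)
    · exact n1 h
    · exact n2 h
  have m2 : P1 v ∉ ({P2 v} : Finset (Fin 7)) := by
    rw [Finset.mem_singleton]
    exact n3
  rw [P_filter v, Finset.prod_insert m1, Finset.prod_insert m2, Finset.prod_singleton, mul_assoc]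

theorem Pc0 : ∀ i : Fin 7, P0 (Fin.castAdd 7 i) = i ∧ P0 (Fin.natAdd 7 i) = i := by decide
theorem Pc1 : ∀ i : Fin 7, P1 (Fin.castAdd 7 i) = i + 1 ∧ P1 (Fin.natAdd 7 i) = i + 1 := by decide
theorem Pc2 : ∀ i : Fin 7, P2 (Fin.castAdd 7 i) = i + 3 ∧ P2 (Fin.natAdd 7 i) = i + 3 := by decide

theorem prodP (w : Fin 4 → Fin 3 → ℕ) (y : Fin 7 → Fin 3) :
    ∏ v : Fin 14, T w (y (P0 v)) (y (P1 v)) (y (P2 v))
      = (∏ i : Fin 7, T w (y i) (y (i + 1)) (y (i + 3))) ^ 2 := by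
  rw [show (∏ v : Fin 14, T w (y (P0 v)) (y (P1 v)) (y (P2 v)))
    = ∏ v : Fin (7 + 7), T w (y (P0 v)) (y (P1 v)) (y (P2 v)) from rfl, Fin.prod_univ_add, sq]
  have q1 : ∏ i : Fin 7, T w (y (P0 (Fin.castAdd 7 i))) (y (P1 (Fin.castAdd 7 i)))
      (y (P2 (Fin.castAdd 7 i))) = ∏ i : Fin 7, T w (y i) (y (i + 1)) (y (i + 3)) :=
    Finset.prod_congr rfl fun i _ => by rw [(Pc0 i).1, (Pc1 i).1, (Pc2 i).1]
  have q2 : ∏ i : Fin 7, T w (y (P0 (Fin.natAdd 7 i))) (y (P1 (Fin.natAdd 7 i)))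
      (y (P2 (Fin.natAdd 7 i))) = ∏ i : Fin 7, T w (y i) (y (i + 1)) (y (i + 3)) :=
    Finset.prod_congr rfl fun i _ => by rw [(Pc0 i).2, (Pc1 i).2, (Pc2 i).2]
  rw [q1, q2]

theorem S_eq (w : Fin 4 → Fin 3 → ℕ) : S w = ∑ a : Fin 3, ∑ b : Fin 3, ∑ c : Fin 3, ∑ d : Fin 3,
    ∑ e : Fin 3, ∑ f : Fin 3, ∑ g : Fin 3,
      (T w a b d * T w b c e * T w c d f * T w d e g * T w e f a * T w f g b * T w g a c) ^ 2 := by
  unfold S
  simp only [loc, prodP]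
  rw [sum7]
  refine Finset.sum_congr rfl fun a _ => ?_
  refine Finset.sum_congr rfl fun b _ => ?_
  refine Finset.sum_congr rfl fun c _ => ?_
  refine Finset.sum_congr rfl fun d _ => ?_
  refine Finset.sum_congr rfl fun e _ => ?_
  refine Finset.sum_congr rfl fun f _ => ?_
  refine Finset.sum_congr rfl fun g _ => ?_
  rw [Fin.prod_univ_seven]
  rfl

end Pool.Agent.H226R4
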