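import Pool.Agent.H226R4.Defs

set_option autoImplicit false

namespace Pool.Agent.H226R4

variable {A B : Type}

theorem not_preconnected {V : Type} (G : SimpleGraph V) (s : Set V) (a b : V) (ha : a ∈ s)
    (hb : b ∈ s) (hab : a ≠ b) (h : ∀ c ∈ s, ¬ G.Adj a c) : ¬ (G.induce s).Preconnected := by
  intro hp
  obtain ⟨w⟩ := hp ⟨a, ha⟩ ⟨b, hb⟩
  cases w with
  | nil => exact hab rfl
  | @cons _ v _ h1 _ => exact h v.1 v.2 (by simpa using h1)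

/-- a permutation from an involutive function -/
def ip {C : Type} (f : C → C) (h : ∀ x, f (f x) = x) : Equiv.Perm C := ⟨f, f, h, h⟩

theorem cut_of (E : Finset (A × B)) (f : A → A) (g : B → B) (hf : ∀ x, f (f x) = x)
    (hg : ∀ x, g (g x) = x) (hE : ∀ v w, (f v, g w) ∈ E ↔ (v, w) ∈ E) (a : A) (h1 : f a ≠ a)
    (h2 : ∀ w, (a, w) ∈ E → g w = w) : IsCutInvolution E (ip f hf, ip g hg) := by
  refine ⟨hE, rfl, ?_⟩
  refine not_preconnected _ _ (Sum.inl a) (Sum.inl (f a)) ?_ ?_ ?_ ?_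
  · intro h
    apply h1
    have h3 : Sum.map (ip f hf) (ip g hg) (Sum.inl a : A ⊕ B) = Sum.inl a := h
    simpa [ip] using h3
  · intro h
    apply h1
    have h3 : Sum.map (ip f hf) (ip g hg) (Sum.inl (f a) : A ⊕ B) = Sum.inl (f a) := h
    have h4 : f (f a) = f a := by simpa [ip] using h3
    rw [hf] at h4
    exact h4.symm
  · intro h
    exact h1 (Sum.inl.inj h).symm
  · rintro c hc (⟨v, w, hvw, h3, h4⟩ | ⟨v, w, hvw, h3, h4⟩)
    · apply hc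
      have h5 : v = a := (Sum.inl.inj h3).symm
      subst h5
      have h6 := h2 w hvw
      show Sum.map (ip f hf) (ip g hg) c = c
      rw [h4]
      simp [ip, h6]
    · cases h3

def F0 : Fin 14 → Fin 14 := ![7, 1, 3, 2, 6, 5, 4, 0, 8, 10, 9, 13, 12, 11]
def G0 : Fin 7 → Fin 7 := ![0, 1, 4, 3, 2, 6, 5]
def F1 : Fin 14 → Fin 14 := ![0, 2, 1, 5, 4, 3, 13, 7, 9, 8, 12, 11, 10, 6]
def G1 : Fin 7 → Fin 7 := ![0, 3, 2, 1, 5, 4, 6]
def F2 : Fin 14 → Fin 14 := ![1, 0, 4, 3, 2, 12, 6, 8, 7, 11, 10, 9, 5, 13]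
def G2 : Fin 7 → Fin 7 := ![2, 1, 0, 4, 3, 5, 6]

def FF : Fin 3 → Fin 14 → Fin 14 := ![F0, F1, F2]
def GG : Fin 3 → Fin 7 → Fin 7 := ![G0, G1, G2]
def AX : Fin 3 → Fin 14 := ![0, 6, 5]

theorem F_inv : ∀ i x, FF i (FF i x) = x := by decide
theorem G_inv : ∀ i x, GG i (GG i x) = x := by decide
theorem FG_aut : ∀ i v w, (FF i v, GG i w) ∈ fano2 ↔ (v, w) ∈ fano2 := by decide +kernel
theorem F_ne : ∀ i, FF i (AX i) ≠ AX i := by decide
theorem G_fix : ∀ i w, (AX i, w) ∈ fano2 → GG i w = w := by decide +kernel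

def gen (i : Fin 3) : Equiv.Perm (Fin 14) × Equiv.Perm (Fin 7) :=
  (ip (FF i) (F_inv i), ip (GG i) (G_inv i))

theorem gen_mem (i : Fin 3) : gen i ∈ cutGroup fano2 := by
  apply Subgroup.subset_closure
  exact cut_of fano2 (FF i) (GG i) (F_inv i) (G_inv i) (FG_aut i) (AX i) (F_ne i) (G_fix i)

def act (i : Fin 3) (p : Fin 14 × Fin 7) : Fin 14 × Fin 7 := (FF i p.1, GG i p.2)

def run : List (Fin 3) → Fin 14 × Fin 7 → Fin 14 × Fin 7
  | [], p => p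
  | i :: l, p => run l (act i p)

def word : Fin 14 → Fin 7 → List (Fin 3) := ![
![[], [1, 2, 0, 2], [], [2, 0, 2], [], [], []],
![[], [2, 1, 2, 0, 2], [2], [], [0, 2], [], []],
![[], [], [1, 2], [0, 2, 0, 1, 2], [], [1, 0, 2], []],
![[], [], [], [2, 0, 1, 2], [0, 1, 2], [], [0, 1, 0, 2]],
![[2, 1, 2], [], [], [], [1, 2, 1, 0, 2], [2, 1, 0, 2], []],
![[], [1, 2, 0, 1, 2], [], [], [], [1, 0, 1, 2], [1, 0, 1, 0, 2]],
![[0, 2, 1, 2], [], [2, 0, 2, 1, 2], [], [], [], [0, 2, 1, 0, 2]],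
![[0], [1, 2, 0, 2, 0], [], [2, 0, 2, 0], [], [], []],
![[], [2, 1, 2, 0, 2, 0], [2, 0], [], [0, 2, 0], [], []],
![[], [], [1, 2, 0], [0, 2, 0, 1, 2, 0], [], [1, 0, 2, 0], []],
![[], [], [], [2, 0, 1, 2, 0], [0, 1, 2, 0], [], [0, 1, 0, 2, 0]],
![[2, 1, 2, 0], [], [], [], [1, 2, 1, 0, 2, 0], [2, 1, 0, 2, 0], []],
![[], [1, 2, 0, 1, 2, 0], [], [], [], [1, 0, 1, 2, 0], [1, 0, 1, 0, 2, 0]],
![[0, 2, 1, 2, 0], [], [2, 0, 2, 1, 2, 0], [], [], [], [0, 2, 1, 0, 2, 0]]]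

theorem word_run : ∀ v w, (v, w) ∈ fano2 → run (word v w) (v, w) = (0, 0) := by decide +kernel

theorem run_mem (l : List (Fin 3)) : ∀ p : Fin 14 × Fin 7, ∃ φ ∈ cutGroup fano2,
    (φ.1 p.1, φ.2 p.2) = run l p := by
  induction l with
  | nil => intro p; exact ⟨1, Subgroup.one_mem _, rfl⟩
  | cons i l ih =>
    intro p
    obtain ⟨φ, h1, h2⟩ := ih (act i p)
    refine ⟨φ * gen i, Subgroup.mul_mem _ h1 (gen_mem i), ?_⟩
    show _ = run l (act i p)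
    rw [← h2]
    rfl

theorem cutTransitive_fano2 : CutTransitive fano2 := by
  intro p hp q hq
  obtain ⟨φ, h1, h2⟩ := run_mem (word p.1 p.2) p
  obtain ⟨ψ, h3, h4⟩ := run_mem (word q.1 q.2) q
  rw [word_run p.1 p.2 hp] at h2
  rw [word_run q.1 q.2 hq] at h4
  refine ⟨ψ⁻¹ * φ, Subgroup.mul_mem _ (Subgroup.inv_mem _ h3) h1, ?_⟩
  have h5 := Prod.mk.inj (h2.trans h4.symm)
  refine Prod.ext ?_ ?_
  · show ψ.1⁻¹ (φ.1 p.1) = q.1
    rw [h5.1]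
    exact ψ.1.symm_apply_apply q.1
  · show ψ.2⁻¹ (φ.2 p.2) = q.2
    rw [h5.2]
    exact ψ.2.symm_apply_apply q.2

theorem card_fano2 : fano2.card = 42 := by decide +kernel

theorem connected_fano2 : (toGraph fano2).Connected := by
  have hadj : ∀ v w, (v, w) ∈ fano2 → (toGraph fano2).Adj (Sum.inl v) (Sum.inr w) :=
    fun v w h => Or.inl ⟨v, w, h, rfl, rfl⟩
  have hp : ∀ w : Fin 7, ∃ v : Fin 14, (v, w) ∈ fano2 ∧ (v, (0 : Fin 7)) ∈ fano2 := by decide +kernel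
  have hl : ∀ v : Fin 14, ∃ w : Fin 7, (v, w) ∈ fano2 := by decide +kernel
  have h0 : ∀ w : Fin 7, (toGraph fano2).Reachable (Sum.inr w) (Sum.inr 0) := by
    intro w
    obtain ⟨v, h1, h2⟩ := hp w
    exact ((hadj v w h1).symm.reachable).trans (hadj v 0 h2).reachable
  have h1 : ∀ x, (toGraph fano2).Reachable x (Sum.inr 0) := by
    rintro (v | w)
    · obtain ⟨w, h⟩ := hl v
      exact (hadj v w h).reachable.trans (h0 w)
    · exact h0 w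
  have : Nonempty (Fin 14 ⊕ Fin 7) := ⟨Sum.inl 0⟩
  exact ⟨fun x y => (h1 x).trans (h1 y).symm⟩

end Pool.Agent.H226R4
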