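import Mathlib

set_option autoImplicit false

/-! Weakly norming bigraphs and cut-involutions: definitions. -/

namespace Pool.Agent.H226R4

open MeasureTheory

variable {A B : Type}

/-- the graph of a bigraph with sides `A`, `B` and edge set `E` -/
def toGraph (E : Finset (A × B)) : SimpleGraph (A ⊕ B) where
  Adj a b := (∃ v w, (v, w) ∈ E ∧ a = Sum.inl v ∧ b = Sum.inr w) ∨
    (∃ v w, (v, w) ∈ E ∧ a = Sum.inr w ∧ b = Sum.inl v)
  symm := ⟨by
    rintro a b (⟨v, w, h, h1, h2⟩ | ⟨v, w, h, h1, h2⟩)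
    · exact Or.inr ⟨v, w, h, h2, h1⟩
    · exact Or.inl ⟨v, w, h, h2, h1⟩⟩
  loopless := ⟨by
    rintro a (⟨v, w, _, h1, h2⟩ | ⟨v, w, _, h1, h2⟩) <;> rw [h1] at h2 <;> cases h2⟩

/-- side preserving automorphisms -/
def IsAut (E : Finset (A × B)) (φ : Equiv.Perm A × Equiv.Perm B) : Prop :=
  ∀ v w, (φ.1 v, φ.2 w) ∈ E ↔ (v, w) ∈ E

/-- the set of fixed vertices -/
def Fix (φ : Equiv.Perm A × Equiv.Perm B) : Set (A ⊕ B) := {x | Sum.map φ.1 φ.2 x = x}

/-- cut-involutions -/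
def IsCutInvolution (E : Finset (A × B)) (φ : Equiv.Perm A × Equiv.Perm B) : Prop :=
  IsAut E φ ∧ φ = φ⁻¹ ∧ ¬ ((toGraph E).induce (Fix φ)ᶜ).Preconnected

/-- the cut-involution group -/
def cutGroup (E : Finset (A × B)) : Subgroup (Equiv.Perm A × Equiv.Perm B) :=
  Subgroup.closure {φ | IsCutInvolution E φ}

/-- edge-transitivity under the cut-involution group -/
def CutTransitive (E : Finset (A × B)) : Prop :=
  ∀ p ∈ E, ∀ q ∈ E, ∃ φ ∈ cutGroup E, (φ.1 p.1, φ.2 p.2) = q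

/-- the density `t(G, W)` -/
noncomputable def t [Fintype A] [Fintype B] (E : Finset (A × B)) {X Y : Type} [MeasurableSpace X]
    [MeasurableSpace Y] (μ : Measure X) (ν : Measure Y) (W : X × Y → ℝ) : ℝ :=
  ∫ z : (A → X) × (B → Y), ∏ p ∈ E, W (z.1 p.1, z.2 p.2)
    ∂((Measure.pi fun _ => μ).prod (Measure.pi fun _ => ν))

/-- the functional `t(G, |W|)^(1/e(G))` -/
noncomputable def nrm [Fintype A] [Fintype B] (E : Finset (A × B)) {X Y : Type} [MeasurableSpace X]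
    [MeasurableSpace Y] (μ : Measure X) (ν : Measure Y) (W : X × Y → ℝ) : ℝ :=
  (t E μ ν (fun z => |W z|)) ^ (1 / (E.card : ℝ))

/-- bounded and measurable -/
def BM {Z : Type} [MeasurableSpace Z] (W : Z → ℝ) : Prop :=
  Measurable W ∧ ∃ C : ℝ, ∀ z, |W z| ≤ C

/-- weakly norming bigraphs -/
def WeaklyNorming [Fintype A] [Fintype B] (E : Finset (A × B)) : Prop :=
  ∀ (X Y : Type) [MeasurableSpace X] [MeasurableSpace Y] (μ : Measure X) (ν : Measure Y)
    [IsProbabilityMeasure μ] [IsProbabilityMeasure ν],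
    (∀ W : X × Y → ℝ, BM W → (nrm E μ ν W = 0 ↔ W =ᵐ[μ.prod ν] 0)) ∧
    (∀ (c : ℝ) (W : X × Y → ℝ), BM W → nrm E μ ν (fun z => c * W z) = |c| * nrm E μ ν W) ∧
    (∀ W W' : X × Y → ℝ, BM W → BM W' →
      nrm E μ ν (fun z => W z + W' z) ≤ nrm E μ ν W + nrm E μ ν W')

/-- the incidence graph of the Fano plane with every line doubled: lines `v` (the line `v mod 7`,
in two copies), points `w`, with the line `{i, i + 1, i + 3}` -/
def fano2 : Finset (Fin 14 × Fin 7) :=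
  Finset.univ.filter fun p => (p.2.val + 7 - p.1.val % 7) % 7 = 0 ∨
    (p.2.val + 7 - p.1.val % 7) % 7 = 1 ∨ (p.2.val + 7 - p.1.val % 7) % 7 = 3

end Pool.Agent.H226R4
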