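import Pool.Agent.H226R4.Num

set_option autoImplicit false

namespace Pool.Agent.H226R4

open MeasureTheory

/-- the uniform probability measure on `Fin 4` -/
noncomputable def um : Measure (Fin 4) := (4 : ENNReal)⁻¹ • Measure.count

/-- the uniform probability measure on `Fin 3` -/
noncomputable def un : Measure (Fin 3) := (3 : ENNReal)⁻¹ • Measure.count

instance : IsProbabilityMeasure um := ⟨by
  unfold um
  rw [Measure.smul_apply, Measure.count_apply MeasurableSet.univ]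
  simp [ENNReal.inv_mul_cancel]⟩

instance : IsProbabilityMeasure un := ⟨by
  unfold un
  rw [Measure.smul_apply, Measure.count_apply MeasurableSet.univ]
  simp [ENNReal.inv_mul_cancel]⟩

theorem um_real (x : Fin 4) : um.real {x} = 1 / 4 := by
  unfold um
  rw [measureReal_def, Measure.smul_apply, Measure.count_singleton]
  simp

theorem un_real (x : Fin 3) : un.real {x} = 1 / 3 := by
  unfold un
  rw [measureReal_def, Measure.smul_apply, Measure.count_singleton]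
  simp

theorem bm_fin (W : Fin 4 × Fin 3 → ℝ) : BM W := by
  refine ⟨measurable_of_finite W, ∑ z, |W z|, fun z => ?_⟩
  exact Finset.single_le_sum (f := fun z => |W z|) (fun z _ => abs_nonneg _) (Finset.mem_univ z)

theorem nrm_pow (w : Fin 4 → Fin 3 → ℕ) (W : Fin 4 × Fin 3 → ℝ)
    (hW : ∀ z, W z = (w z.1 z.2 : ℝ)) :
    0 ≤ nrm fano2 um un W ∧
      nrm fano2 um un W ^ 42 = (1 / 4 : ℝ) ^ 14 * (1 / 3) ^ 7 * (S w : ℝ) := by
  have h1 : nrm fano2 um un W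
      = ((1 / 4 : ℝ) ^ 14 * (1 / 3) ^ 7 * (S w : ℝ)) ^ (1 / ((42 : ℕ) : ℝ)) := by
    unfold nrm
    rw [card_fano2, t_eq um un (1 / 4) (1 / 3) um_real un_real w (fun z => |W z|)
      (fun z => by rw [hW z]; exact Nat.abs_cast _)]
  have h2 : (0 : ℝ) ≤ (1 / 4 : ℝ) ^ 14 * (1 / 3) ^ 7 * (S w : ℝ) := by positivity
  rw [h1]
  refine ⟨Real.rpow_nonneg h2 _, ?_⟩
  rw [one_div ((42 : ℕ) : ℝ)]
  exact Real.rpow_inv_natCast_pow h2 (by norm_num)

theorem ws_cast (z : Fin 4 × Fin 3) : (wp z.1 z.2 : ℝ) + (wm z.1 z.2 : ℝ) = (ws z.1 z.2 : ℝ) := by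
  rw [← ws_add z.1 z.2, Nat.cast_add]

theorem final_ineq (a b c : ℕ) (h : 2 ^ 41 * (a + b) < c) (κ x y z : ℝ) (hκ : 0 < κ) (hx : 0 ≤ x)
    (hy : 0 ≤ y) (hz : 0 ≤ z) (x1 : x ^ 42 = κ * a) (y1 : y ^ 42 = κ * b) (z1 : z ^ 42 = κ * c)
    (hle : z ≤ x + y) : False := by
  have h5 := pow_le_pow_left₀ hz hle 42
  have h6 := h5.trans (add_pow_le hx hy 42)
  rw [x1, y1, z1] at h6
  have h' : ((2 ^ 41 * (a + b) : ℕ) : ℝ) < (c : ℝ) := Nat.cast_lt.2 h
  rw [Nat.cast_mul, Nat.cast_add, Nat.cast_pow] at h'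
  have h9 := mul_lt_mul_of_pos_left h' hκ
  have h10 : (2 : ℝ) ^ (42 - 1) * (κ * a + κ * b) = κ * (((2 : ℕ) : ℝ) ^ 41 * ((a : ℝ) + (b : ℝ))) := by
    rw [show 42 - 1 = 41 from rfl, Nat.cast_ofNat]
    ring
  rw [h10] at h6
  exact absurd h9 (not_lt.2 h6)

theorem not_weaklyNorming : ¬ WeaklyNorming fano2 := by
  intro h
  have h4 := (h (Fin 4) (Fin 3) um un).2.2 (fun z => (wp z.1 z.2 : ℝ))
    (fun z => (wm z.1 z.2 : ℝ)) (bm_fin _) (bm_fin _)
  have p := nrm_pow wp (fun z => (wp z.1 z.2 : ℝ)) (fun _ => rfl)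
  have m := nrm_pow wm (fun z => (wm z.1 z.2 : ℝ)) (fun _ => rfl)
  have s := nrm_pow ws (fun z => (wp z.1 z.2 : ℝ) + (wm z.1 z.2 : ℝ)) ws_cast
  exact final_ineq (S wp) (S wm) (S ws) key _ _ _ _ (by positivity) p.1 m.1 s.1 p.2 m.2 s.2 h4

end Pool.Agent.H226R4
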